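import Mathlib

namespace Pool.Agent.Results.MP_395e41_an.Strict

open MeasureTheory Set Filter Topology Metric

/-- admissible controls: measurable on `[0,∞)` with values in `U` a.e. -/
def Adm (U : Set ℝ) (u : ℝ → ℝ) : Prop :=
  AEStronglyMeasurable u (volume.restrict (Ici 0)) ∧ ∀ᵐ t ∂(volume.restrict (Ici 0)), u t ∈ U

/-- `x` solves `x' = f(x,u)`, `x 0 = x0` on `[0,∞)` (integral form). -/
def IsSol (f : ℝ → ℝ → ℝ) (x0 : ℝ) (u x : ℝ → ℝ) : Prop :=
  ∀ t, 0 ≤ t → IntervalIntegrable (fun s => f (x s) (u s)) volume 0 t ∧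
    x t = x0 + ∫ s in (0 : ℝ)..t, f (x s) (u s)

/-- `φ` is the unique solution map of the system, continuous in the initial value. -/
def IsFlow (f : ℝ → ℝ → ℝ) (U : Set ℝ) (φ : ℝ → ℝ → (ℝ → ℝ) → ℝ) : Prop :=
  ∀ u, Adm U u → (∀ x0, IsSol f x0 u (fun t => φ t x0 u) ∧
    ∀ x, IsSol f x0 u x → ∀ t, 0 ≤ t → x t = φ t x0 u) ∧
    ∀ t, 0 ≤ t → Continuous fun x0 => φ t x0 u

def IsKL (ζ : ℝ → ℝ → ℝ) : Prop :=
  ContinuousOn (fun p : ℝ × ℝ => ζ p.1 p.2) (Ici 0 ×ˢ Ici 0) ∧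
  (∀ r s, 0 ≤ r → 0 ≤ s → 0 ≤ ζ r s) ∧
  (∀ s, 0 ≤ s → StrictMonoOn (fun r => ζ r s) (Ici 0) ∧ ζ 0 s = 0) ∧
  ∀ r, 0 < r → StrictAntiOn (ζ r) (Ici 0) ∧ Tendsto (ζ r) atTop (𝓝 0)

def Stabilizable (U Γ Λ : Set ℝ) (ζ : ℝ → ℝ → ℝ) (φ : ℝ → ℝ → (ℝ → ℝ) → ℝ) : Prop :=
  ∀ x0 ∈ Γ, ∃ u, Adm U u ∧ ∀ t, 0 ≤ t → infDist (φ t x0 u) Λ ≤ ζ (infDist x0 Λ) t

/-- spanning sets (`η = 0`) and practically spanning sets (`η = ε`). -/
def Span (U Γ Λ : Set ℝ) (ζ : ℝ → ℝ → ℝ) (φ : ℝ → ℝ → (ℝ → ℝ) → ℝ) (τ ε η : ℝ)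
    (S : Set (ℝ → ℝ)) : Prop :=
  (∀ u ∈ S, Adm U u) ∧
    ∀ x0 ∈ Γ, ∃ u ∈ S, ∀ t ∈ Icc 0 τ, infDist (φ t x0 u) Λ ≤ ζ (infDist x0 Λ + ε) t + η

/-- minimal cardinality, `⊤` if there is no finite such set. -/
noncomputable def rmin (U Γ Λ : Set ℝ) (ζ : ℝ → ℝ → ℝ) (φ : ℝ → ℝ → (ℝ → ℝ) → ℝ)
    (τ ε η : ℝ) : ℕ∞ :=
  ⨅ (S : Set (ℝ → ℝ)) (_ : Span U Γ Λ ζ φ τ ε η S), S.encard

/-- `limsup (1/τ) log r(τ,ε)`. -/
noncomputable def ent (U Γ Λ : Set ℝ) (ζ : ℝ → ℝ → ℝ) (φ : ℝ → ℝ → (ℝ → ℝ) → ℝ)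
    (ε η : ℝ) : EReal :=
  limsup (fun τ : ℝ => ENNReal.log (rmin U Γ Λ ζ φ τ ε η : ENNReal) / (τ : EReal)) atTop

noncomputable def ph (t x0 : ℝ) (u : ℝ → ℝ) : ℝ := x0 + ∫ s in (0 : ℝ)..t, u s

noncomputable def ze (r s : ℝ) : ℝ := r * Real.exp (-s)

lemma adm_int {u : ℝ → ℝ} (hu : Adm (Icc (-1) 1) u) {t : ℝ} (ht : 0 ≤ t) :
    IntervalIntegrable u volume 0 t := by
  rw [intervalIntegrable_iff_integrableOn_Ioc_of_le ht]
  have hs : Ioc 0 t ⊆ Ici 0 := fun x hx => hx.1.le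
  refine IntegrableOn.of_bound (by simp) ?_ 1 ?_
  · exact hu.1.mono_measure (Measure.restrict_mono hs le_rfl)
  · filter_upwards [ae_restrict_of_ae_restrict_of_subset hs hu.2] with s h
    exact abs_le.2 h

lemma ctrl (a : ℝ) (ha : a ∈ Icc (0 : ℝ) 1) :
    Adm (Icc (-1) 1) (fun s => -a * Real.exp (-s)) ∧
      ∀ t x0, ph t x0 (fun s => -a * Real.exp (-s)) = x0 - a + a * Real.exp (-t) := by
  refine ⟨⟨(by fun_prop : Continuous _).aestronglyMeasurable, ?_⟩, fun t x0 => ?_⟩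
  · filter_upwards [ae_restrict_mem measurableSet_Ici] with s hs
    have h1 : Real.exp (-s) ≤ 1 := Real.exp_le_one_iff.2 (by simpa using hs)
    have h2 := Real.exp_pos (-s)
    constructor <;> nlinarith [ha.1, ha.2]
  · unfold ph
    rw [intervalIntegral.integral_const_mul, intervalIntegral.integral_comp_neg
      (fun s => Real.exp s), integral_exp]
    simp; ring

theorem result :
    IsFlow (fun _ u => u) (Icc (-1) 1) ph ∧ IsKL ze ∧
    Stabilizable (Icc (-1) 1) (Icc 0 1) {0} ze ph ∧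
    ∀ ε : ℝ, 0 < ε → ent (Icc (-1) 1) (Icc 0 1) {0} ze ph ε ε = 0 ∧
      1 ≤ ent (Icc (-1) 1) (Icc 0 1) {0} ze ph ε 0 := by
  refine ⟨fun u hu => ⟨fun x0 => ⟨fun t ht => ⟨adm_int hu ht, rfl⟩, fun x hx t ht => (hx t ht).2⟩,
    fun t _ => by unfold ph; fun_prop⟩, ⟨?_, ?_, ?_, ?_⟩, ?_, fun ε hε => ⟨?_, ?_⟩⟩
  · exact (by unfold ze; fun_prop : Continuous _).continuousOn
  · intro r s hr _; unfold ze; positivity
  · intro s _
    refine ⟨fun a _ b _ h => ?_, by simp [ze]⟩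
    exact mul_lt_mul_of_pos_right h (Real.exp_pos _)
  · intro r hr
    refine ⟨fun a _ b _ h => mul_lt_mul_of_pos_left (Real.exp_lt_exp.2 (by linarith)) hr, ?_⟩
    have := Real.tendsto_exp_neg_atTop_nhds_zero.const_mul r
    rw [mul_zero] at this
    exact this
  · intro x0 hx
    refine ⟨_, (ctrl x0 hx).1, fun t _ => ?_⟩
    rw [(ctrl x0 hx).2]
    simp [ze, abs_of_pos (Real.exp_pos _)]
  · obtain ⟨F, hF, hfin, hcov⟩ := finite_cover_balls_of_compact (isCompact_Icc (a := (0 : ℝ))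
      (b := 1)) hε
    have hup : ∀ τ, rmin (Icc (-1) 1) (Icc 0 1) {0} ze ph τ ε ε ≤ (F.ncard : ℕ∞) := by
      intro τ
      refine (iInf₂_le ((fun a : ℝ => fun s => -a * Real.exp (-s)) '' F) ⟨?ga, ?gb⟩).trans ?gc
      case gc => rw [hfin.cast_ncard_eq]; exact encard_image_le _ _
      · rintro _ ⟨a, ha, rfl⟩; exact (ctrl a (hF ha)).1
      · intro x0 hx
        obtain ⟨a, ha, hxa⟩ := mem_iUnion₂.1 (hcov hx)
        refine ⟨_, mem_image_of_mem _ ha, fun t _ => ?_⟩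
        rw [(ctrl a (hF ha)).2]
        simp only [infDist_singleton, dist_zero_right, Real.norm_eq_abs, ze, abs_of_nonneg hx.1]
        have h1 := abs_lt.1 (show |x0 - a| < ε from hxa)
        have h2 := Real.exp_pos (-t)
        have h3 := (hF ha).1
        rw [abs_le]
        constructor <;> nlinarith [hx.1, mul_nonneg h3 h2.le]
    have hlo : ∀ τ, 1 ≤ rmin (Icc (-1) 1) (Icc 0 1) {0} ze ph τ ε ε := by
      intro τ
      refine le_iInf₂ fun S hS => one_le_encard_iff_nonempty.2 ?_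
      obtain ⟨u, hu, -⟩ := hS.2 0 (by simp)
      exact ⟨u, hu⟩
    refine Tendsto.limsup_eq ?_
    have ht : Tendsto (fun τ : ℝ => ((Real.log F.ncard / τ : ℝ) : EReal)) atTop (𝓝 0) := by
      have : Tendsto (fun τ : ℝ => (Real.log F.ncard / τ : ℝ)) atTop (𝓝 0) :=
        tendsto_const_nhds.div_atTop tendsto_id
      exact (continuous_coe_real_ereal.tendsto 0).comp this
    refine tendsto_of_tendsto_of_tendsto_of_le_of_le' tendsto_const_nhds ht ?_ ?_
    · filter_upwards [eventually_gt_atTop 0] with τ hτ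
      refine EReal.div_nonneg ?_ (by exact_mod_cast hτ.le)
      rw [ENNReal.zero_le_log_iff]
      exact_mod_cast hlo τ
    · filter_upwards [eventually_gt_atTop 0] with τ hτ
      rw [EReal.coe_div]
      refine EReal.div_le_div_right_of_nonneg (by exact_mod_cast hτ.le) ?_
      have h1 : (1 : ℕ∞) ≤ F.ncard := (hlo τ).trans (hup τ)
      have h2 : (0 : ℝ) < F.ncard := by exact_mod_cast h1
      rw [← ENNReal.log_ofReal_of_pos h2]
      refine ENNReal.log_monotone ?_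
      rw [ENNReal.ofReal_natCast]
      exact_mod_cast hup τ
  · have hlo : ∀ τ, 0 ≤ τ → ENNReal.ofReal (Real.exp τ / (2 * (1 + ε))) ≤
        (rmin (Icc (-1) 1) (Icc 0 1) {0} ze ph τ ε 0 : ENNReal) := by
      intro τ hτ
      obtain h | ⟨S, hS, h⟩ : rmin (Icc (-1) 1) (Icc 0 1) {0} ze ph τ ε 0 = ⊤ ∨
          ∃ S, Span (Icc (-1) 1) (Icc 0 1) {0} ze ph τ ε 0 S ∧
            S.encard ≤ rmin (Icc (-1) 1) (Icc 0 1) {0} ze ph τ ε 0 := by
        by_contra hc
        push Not at hc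
        refine absurd (le_iInf₂ fun S hS => Order.add_one_le_of_lt (hc.2 S hS)) (not_le.2 ?_)
        exact ENat.lt_add_one_iff hc.1 |>.2 le_rfl
      · simp [h]
      by_cases hfin : S.Finite
      swap
      · rw [Infinite.encard_eq hfin, top_le_iff] at h; simp [h]
      refine le_trans ?_ (ENat.toENNReal_le.2 h)
      rw [← hfin.cast_ncard_eq]
      have hc : Icc (0 : ℝ) 1 ⊆ ⋃ u ∈ hfin.toFinset,
          closedBall (-ph τ 0 u) ((1 + ε) * Real.exp (-τ)) := by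
        intro x hx
        obtain ⟨u, hu, h⟩ := hS.2 x hx
        refine mem_iUnion₂.2 ⟨u, by simpa using hu, ?_⟩
        have := h τ ⟨hτ, le_rfl⟩
        simp only [infDist_singleton, dist_zero_right, Real.norm_eq_abs, ze, abs_of_nonneg hx.1,
          add_zero, ph] at this
        simp only [mem_closedBall, Real.dist_eq, ph, zero_add, sub_neg_eq_add]
        exact this.trans (mul_le_mul_of_nonneg_right (by linarith [hx.2]) (Real.exp_pos _).le)
      have h1 := (measure_mono (μ := volume) hc).trans (measure_biUnion_finset_le _ _)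
      simp only [Real.volume_Icc, Real.volume_closedBall, Finset.sum_const, nsmul_eq_mul,
        ← ncard_eq_toFinset_card _ hfin] at h1
      rw [← ENNReal.ofReal_natCast, ← ENNReal.ofReal_mul (by positivity),
        ENNReal.ofReal_le_ofReal_iff (by positivity)] at h1
      simp only [ENat.toENNReal_coe]
      rw [← ENNReal.ofReal_natCast]
      refine ENNReal.ofReal_le_ofReal ?_
      rw [div_le_iff₀ (by positivity)]
      have h2 : Real.exp (-τ) * Real.exp τ = 1 := by rw [← Real.exp_add]; simp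
      have h3 := mul_le_mul_of_nonneg_right h1 (Real.exp_pos τ).le
      calc Real.exp τ = (1 - 0) * Real.exp τ := by ring
        _ ≤ _ := h3
        _ = S.ncard * (2 * (1 + ε)) * (Real.exp (-τ) * Real.exp τ) := by ring
        _ = _ := by rw [h2, mul_one]
    have ht : Tendsto (fun τ : ℝ => ((1 - Real.log (2 * (1 + ε)) / τ : ℝ) : EReal)) atTop
        (𝓝 1) := by
      have : Tendsto (fun τ : ℝ => (1 - Real.log (2 * (1 + ε)) / τ : ℝ)) atTop (𝓝 (1 - 0)) :=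
        tendsto_const_nhds.sub (tendsto_const_nhds.div_atTop tendsto_id)
      rw [sub_zero] at this
      exact (continuous_coe_real_ereal.tendsto 1).comp this
    rw [← ht.limsup_eq]
    refine limsup_le_limsup ?_
    filter_upwards [eventually_gt_atTop 0] with τ hτ
    have : 1 - Real.log (2 * (1 + ε)) / τ = Real.log (Real.exp τ / (2 * (1 + ε))) / τ := by
      rw [Real.log_div (by positivity) (by positivity), Real.log_exp]; field_simp
    rw [this, EReal.coe_div, ← ENNReal.log_ofReal_of_pos (by positivity)]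
    exact EReal.div_le_div_right_of_nonneg (by exact_mod_cast hτ.le)
      (ENNReal.log_monotone (hlo τ hτ.le))

end Pool.Agent.Results.MP_395e41_an.Strict
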